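import Mathlib
import Pool.Agent.V1195.L2Ops

set_option autoImplicit false
open Filter Topology MeasureTheory
open scoped InnerProductSpace ENNReal

namespace Pool.Agent.Results.MP_5a0ad8_an.NotTraceClass

noncomputable section

/-- Lebesgue measure on `[0,1]`. -/
abbrev mu : Measure ℝ := volume.restrict (Set.Icc (0 : ℝ) 1)

/-- The complex Hilbert space `L²([0,1])`. -/
abbrev L01 : Type := Lp ℂ 2 mu

/-- The kernel `K(y,u) = {u/y} / (u/y)`. -/
def kern (y u : ℝ) : ℝ := Int.fract (u / y) / (u / y)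

/-- `T` is the integral operator with kernel `K`. -/
def IsOp (T : L01 →L[ℂ] L01) : Prop :=
  ∀ h : L01, T h =ᵐ[mu] fun y => ∫ u in Set.Icc (0 : ℝ) 1, (kern y u : ℂ) * h u

/-- The distance of `T` to the operators of rank at most `n`, that is, the singular value
`s_{n+1}(T)` (Schmidt, Mirsky). -/
def singularNumber (T : L01 →L[ℂ] L01) (n : ℕ) : ℝ :=
  sInf {r : ℝ | ∃ F : L01 →L[ℂ] L01, Module.rank ℂ (LinearMap.range F.toLinearMap) ≤ n ∧
    r = ‖T - F‖}

/-- the frequencies -/
def om (m : ℕ) : ℝ := 4 * Real.pi * ((m : ℝ) + 1)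

lemma om_pos (m : ℕ) : 0 < om m := by unfold om; positivity

lemma sin_om (m : ℕ) : Real.sin (om m) = 0 := by
  have : om m = ((4 * (m + 1) : ℕ) : ℝ) * Real.pi := by unfold om; push_cast; ring
  rw [this, Real.sin_nat_mul_pi]

lemma sin_om_half (m : ℕ) : Real.sin (om m * (1 / 2)) = 0 := by
  have : om m * (1 / 2) = ((2 * (m + 1) : ℕ) : ℝ) * Real.pi := by unfold om; push_cast; ring
  rw [this, Real.sin_nat_mul_pi]

lemma cos_om (m : ℕ) : Real.cos (om m) = 1 := by
  have : om m = ((2 * (m + 1) : ℕ) : ℝ) * (2 * Real.pi) := by unfold om; push_cast; ring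
  rw [this, Real.cos_nat_mul_two_pi]

lemma cos_om_half (m : ℕ) : Real.cos (om m * (1 / 2)) = 1 := by
  have : om m * (1 / 2) = ((m + 1 : ℕ) : ℝ) * (2 * Real.pi) := by unfold om; push_cast; ring
  rw [this, Real.cos_nat_mul_two_pi]

lemma kern_low {y u : ℝ} (hu : 0 < u) (huy : u < y) : kern y u * u = u := by
  have hy : 0 < y := hu.trans huy
  have h1 : Int.fract (u / y) = u / y := by
    rw [Int.fract_eq_self]
    exact ⟨by positivity, (div_lt_one hy).2 huy⟩
  rw [kern, h1, div_self (by positivity), one_mul]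

lemma kern_high {y u : ℝ} (hy : 1 / 2 < y) (huy : y ≤ u) (hu : u ≤ 1) : kern y u * u = u - y := by
  have hy0 : 0 < y := by linarith
  have hu0 : 0 < u := by linarith
  have h1 : Int.fract (u / y) = u / y - 1 := by
    have h2 : ⌊u / y⌋ = 1 := by
      rw [Int.floor_eq_iff]
      refine ⟨?_, ?_⟩
      · rw [le_div_iff₀ hy0]; push_cast; linarith
      · rw [div_lt_iff₀ hy0]; push_cast; linarith
    rw [← Int.self_sub_floor, h2]; push_cast; ring
  rw [kern, h1]
  field_simp

/-- The main integral. -/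
lemma main_integral (m : ℕ) {y : ℝ} (hy : 1 / 2 < y) (hy1 : y ≤ 1) :
    ∫ u in (1 / 2 : ℝ)..1, kern y u * (u * (2 * Real.cos (om m * u))) =
      y * (2 * Real.sin (om m * y) / om m) := by
  have hom := (om_pos m).ne'
  -- antiderivatives
  have hP : ∀ u : ℝ, HasDerivAt (fun u => 2 * u * Real.sin (om m * u) / om m +
      2 * Real.cos (om m * u) / om m ^ 2) (u * (2 * Real.cos (om m * u))) u := by
    intro u
    have h1 : HasDerivAt (fun u => om m * u) (om m) u := by
      simpa using (hasDerivAt_id u).const_mul (om m)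
    have h2 := (((hasDerivAt_id' u).const_mul 2).mul h1.sin).div_const (om m)
    have h3 := (h1.cos.const_mul 2).div_const (om m ^ 2)
    refine (h2.add h3).congr_deriv ?_
    field_simp
    ring
  have hQ : ∀ u : ℝ, HasDerivAt (fun u => 2 * Real.sin (om m * u) / om m)
      (2 * Real.cos (om m * u)) u := by
    intro u
    have h1 : HasDerivAt (fun u => om m * u) (om m) u := by
      simpa using (hasDerivAt_id u).const_mul (om m)
    have h2 := (h1.sin.const_mul 2).div_const (om m)
    refine h2.congr_deriv ?_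
    field_simp
  have e1 : ∫ u in (1 / 2 : ℝ)..y, kern y u * (u * (2 * Real.cos (om m * u))) =
      ∫ u in (1 / 2 : ℝ)..y, u * (2 * Real.cos (om m * u)) := by
    refine intervalIntegral.integral_congr_ae ?_
    have hne : ∀ᵐ u ∂(volume : Measure ℝ), u ≠ y := by
      rw [ae_iff]; simp
    filter_upwards [hne] with u hu hmem
    rw [Set.uIoc_of_le hy.le] at hmem
    rw [← mul_assoc, kern_low (by linarith [hmem.1]) (lt_of_le_of_ne hmem.2 hu)]
  have e2 : ∫ u in y..(1 : ℝ), kern y u * (u * (2 * Real.cos (om m * u))) =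
      ∫ u in y..(1 : ℝ), (u * (2 * Real.cos (om m * u)) - y * (2 * Real.cos (om m * u))) := by
    refine intervalIntegral.integral_congr ?_
    intro u hu
    rw [Set.uIcc_of_le hy1] at hu
    change kern y u * (u * (2 * Real.cos (om m * u))) = _
    rw [← mul_assoc, kern_high hy hu.1 hu.2]
    ring
  have i1 : IntervalIntegrable (fun u => kern y u * (u * (2 * Real.cos (om m * u)))) volume
      (1 / 2) y := by
    have h0 : IntervalIntegrable (fun u => u * (2 * Real.cos (om m * u))) volume (1 / 2) y :=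
      Continuous.intervalIntegrable (by fun_prop) _ _
    refine h0.congr_ae ?_
    have hne : ∀ᵐ u ∂(volume.restrict (Set.uIoc (1 / 2) y) : Measure ℝ), u ≠ y := by
      refine ae_restrict_of_ae ?_
      rw [ae_iff]; simp
    filter_upwards [hne, ae_restrict_mem measurableSet_uIoc] with u hu hmem
    rw [Set.uIoc_of_le hy.le] at hmem
    rw [← mul_assoc (kern y u), kern_low (by linarith [hmem.1]) (lt_of_le_of_ne hmem.2 hu)]
  have i2 : IntervalIntegrable (fun u => kern y u * (u * (2 * Real.cos (om m * u)))) volume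
      y 1 := by
    have h0 : IntervalIntegrable (fun u => u * (2 * Real.cos (om m * u)) -
        y * (2 * Real.cos (om m * u))) volume y 1 :=
      Continuous.intervalIntegrable (by fun_prop) _ _
    refine h0.congr_ae ?_
    filter_upwards [ae_restrict_mem measurableSet_uIoc] with u hmem
    rw [Set.uIoc_of_le hy1] at hmem
    rw [← mul_assoc (kern y u), kern_high hy hmem.1.le hmem.2]
    ring
  rw [← intervalIntegral.integral_add_adjacent_intervals i1 i2, e1, e2,
    intervalIntegral.integral_sub (Continuous.intervalIntegrable (by fun_prop) _ _)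
      (Continuous.intervalIntegrable (by fun_prop) _ _),
    intervalIntegral.integral_const_mul,
    intervalIntegral.integral_eq_sub_of_hasDerivAt (fun u _ => hP u)
      (Continuous.intervalIntegrable (by fun_prop) _ _),
    intervalIntegral.integral_eq_sub_of_hasDerivAt (fun u _ => hP u)
      (Continuous.intervalIntegrable (by fun_prop) _ _),
    intervalIntegral.integral_eq_sub_of_hasDerivAt (fun u _ => hQ u)
      (Continuous.intervalIntegrable (by fun_prop) _ _)]
  rw [mul_one (om m), sin_om, cos_om, cos_om_half, sin_om_half]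
  ring

/-- `∫_{1/2}^1 cos(4πk u) du` -/
lemma int_cos (k : ℤ) : ∫ u in (1 / 2 : ℝ)..1, Real.cos (4 * Real.pi * k * u) =
    if k = 0 then 1 / 2 else 0 := by
  by_cases hk : k = 0
  · subst hk
    simp; norm_num
  · rw [if_neg hk]
    have hk' : (k : ℝ) ≠ 0 := by exact_mod_cast hk
    have hw : 4 * Real.pi * k ≠ 0 := by positivity
    have h1 : ∀ u : ℝ, HasDerivAt (fun u => Real.sin (4 * Real.pi * k * u) / (4 * Real.pi * k))
        (Real.cos (4 * Real.pi * k * u)) u := by
      intro u
      have h1 : HasDerivAt (fun u => 4 * Real.pi * k * u) (4 * Real.pi * k) u := by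
        simpa using (hasDerivAt_id u).const_mul (4 * Real.pi * k)
      have h2 := h1.sin.div_const (4 * Real.pi * k)
      refine h2.congr_deriv ?_
      field_simp
    rw [intervalIntegral.integral_eq_sub_of_hasDerivAt (fun u _ => h1 u)
      (Continuous.intervalIntegrable (by fun_prop) _ _)]
    have s1 : Real.sin (4 * Real.pi * k * 1) = 0 := by
      have : 4 * Real.pi * (k : ℝ) * 1 = ((4 * k : ℤ) : ℝ) * Real.pi := by push_cast; ring
      rw [this, Real.sin_int_mul_pi]
    have s2 : Real.sin (4 * Real.pi * k * (1 / 2)) = 0 := by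
      have : 4 * Real.pi * (k : ℝ) * (1 / 2) = ((2 * k : ℤ) : ℝ) * Real.pi := by push_cast; ring
      rw [this, Real.sin_int_mul_pi]
    rw [s1, s2]; simp

lemma int_coscos (m n : ℕ) : ∫ u in (1 / 2 : ℝ)..1,
    (2 * Real.cos (om m * u)) * (2 * Real.cos (om n * u)) = if m = n then 1 else 0 := by
  have h1 : ∀ u : ℝ, (2 * Real.cos (om m * u)) * (2 * Real.cos (om n * u)) =
      2 * Real.cos (4 * Real.pi * ((m : ℤ) - n : ℤ) * u) +
      2 * Real.cos (4 * Real.pi * ((m : ℤ) + n + 2 : ℤ) * u) := by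
    intro u
    have a1 : 4 * Real.pi * (((m : ℤ) - n : ℤ) : ℝ) * u = om m * u - om n * u := by
      unfold om; push_cast; ring
    have a2 : 4 * Real.pi * (((m : ℤ) + n + 2 : ℤ) : ℝ) * u = om m * u + om n * u := by
      unfold om; push_cast; ring
    rw [a1, a2, Real.cos_sub, Real.cos_add]; ring
  simp_rw [h1]
  rw [intervalIntegral.integral_add (Continuous.intervalIntegrable (by fun_prop) _ _)
      (Continuous.intervalIntegrable (by fun_prop) _ _),
    intervalIntegral.integral_const_mul, intervalIntegral.integral_const_mul, int_cos, int_cos,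
    if_neg (show ((m : ℤ) + n + 2) ≠ 0 by omega)]
  by_cases h : m = n
  · subst h; simp
  · rw [if_neg h, if_neg (by omega)]; simp

lemma int_sinsin (m n : ℕ) : ∫ u in (1 / 2 : ℝ)..1,
    (2 * Real.sin (om m * u)) * (2 * Real.sin (om n * u)) = if m = n then 1 else 0 := by
  have h1 : ∀ u : ℝ, (2 * Real.sin (om m * u)) * (2 * Real.sin (om n * u)) =
      2 * Real.cos (4 * Real.pi * ((m : ℤ) - n : ℤ) * u) -
      2 * Real.cos (4 * Real.pi * ((m : ℤ) + n + 2 : ℤ) * u) := by
    intro u
    have a1 : 4 * Real.pi * (((m : ℤ) - n : ℤ) : ℝ) * u = om m * u - om n * u := by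
      unfold om; push_cast; ring
    have a2 : 4 * Real.pi * (((m : ℤ) + n + 2 : ℤ) : ℝ) * u = om m * u + om n * u := by
      unfold om; push_cast; ring
    rw [a1, a2, Real.cos_sub, Real.cos_add]; ring
  simp_rw [h1]
  rw [intervalIntegral.integral_sub (Continuous.intervalIntegrable (by fun_prop) _ _)
      (Continuous.intervalIntegrable (by fun_prop) _ _),
    intervalIntegral.integral_const_mul, intervalIntegral.integral_const_mul, int_cos, int_cos,
    if_neg (show ((m : ℤ) + n + 2) ≠ 0 by omega)]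
  by_cases h : m = n
  · subst h; simp
  · rw [if_neg h, if_neg (by omega)]; simp

/-- the half interval -/
abbrev S : Set ℝ := Set.Ioc (1 / 2) 1

lemma memLp_vec (f : ℝ → ℝ) (hf : Continuous f) (hb : ∀ u, |f u| ≤ 2) :
    MemLp (S.indicator fun u => (f u : ℂ)) 2 mu := by
  have hfm : Measurable (fun u => (f u : ℂ)) := Complex.measurable_ofReal.comp hf.measurable
  refine MemLp.of_bound ?_ 2 (Eventually.of_forall fun u => ?_)
  · exact (hfm.indicator measurableSet_Ioc).aestronglyMeasurable
  · refine (norm_indicator_le_norm_self _ _).trans ?_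
    rw [Complex.norm_real]; exact hb u

/-- the vector given by a bounded continuous function restricted to `(1/2, 1]` -/
def vec (f : ℝ → ℝ) (hf : Continuous f) (hb : ∀ u, |f u| ≤ 2) : L01 :=
  (memLp_vec f hf hb).toLp _

lemma vec_coe (f : ℝ → ℝ) (hf : Continuous f) (hb : ∀ u, |f u| ≤ 2) :
    vec f hf hb =ᵐ[mu] S.indicator fun u => (f u : ℂ) := MemLp.coeFn_toLp _

/-- integrals of indicators over `[0,1]` -/
lemma integral_S (F : ℝ → ℂ) :
    ∫ u in Set.Icc (0 : ℝ) 1, S.indicator F u = ∫ u in (1 / 2 : ℝ)..1, F u := by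
  rw [integral_indicator measurableSet_Ioc, Measure.restrict_restrict measurableSet_Ioc,
    intervalIntegral.integral_of_le (by norm_num)]
  congr 2
  ext u
  simp only [Set.mem_inter_iff, Set.mem_Ioc, Set.mem_Icc]
  constructor
  · rintro ⟨h, _⟩; exact h
  · rintro ⟨h1, h2⟩; exact ⟨⟨h1, h2⟩, by linarith, h2⟩

lemma inner_vec (f g : ℝ → ℝ) (hf : Continuous f) (hg : Continuous g) (hfb : ∀ u, |f u| ≤ 2)
    (hgb : ∀ u, |g u| ≤ 2) :
    ⟪vec f hf hfb, vec g hg hgb⟫_ℂ = ((∫ u in (1 / 2 : ℝ)..1, f u * g u : ℝ) : ℂ) := by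
  rw [L2.inner_def]
  have h1 : ∫ a, ⟪vec f hf hfb a, vec g hg hgb a⟫_ℂ ∂mu =
      ∫ a, S.indicator (fun u => ((f u * g u : ℝ) : ℂ)) a ∂mu := by
    refine integral_congr_ae ?_
    filter_upwards [vec_coe f hf hfb, vec_coe g hg hgb] with a ha ha'
    rw [ha, ha']
    by_cases h : a ∈ S
    · rw [Set.indicator_of_mem h, Set.indicator_of_mem h, Set.indicator_of_mem h]
      simp [mul_comm]
    · rw [Set.indicator_of_notMem h, Set.indicator_of_notMem h, Set.indicator_of_notMem h]
      simp
  rw [h1]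
  change ∫ a in Set.Icc (0 : ℝ) 1, S.indicator (fun u => ((f u * g u : ℝ) : ℂ)) a = _
  rw [integral_S, intervalIntegral.integral_ofReal]

lemma abs_cos_le (w u : ℝ) : |2 * Real.cos (w * u)| ≤ 2 := by
  rw [abs_mul, abs_two]; nlinarith [Real.abs_cos_le_one (w * u)]

lemma abs_sin_le (w u : ℝ) : |2 * Real.sin (w * u)| ≤ 2 := by
  rw [abs_mul, abs_two]; nlinarith [Real.abs_sin_le_one (w * u)]

def C (m : ℕ) : L01 := vec (fun u => 2 * Real.cos (om m * u)) (by fun_prop) (abs_cos_le _)

def D (m : ℕ) : L01 := vec (fun u => 2 * Real.sin (om m * u)) (by fun_prop) (abs_sin_le _)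

lemma orthonormal_C : Orthonormal ℂ C := by
  rw [orthonormal_iff_ite]
  intro m n
  rw [C, C, inner_vec, int_coscos]
  split_ifs <;> simp

lemma orthonormal_D : Orthonormal ℂ D := by
  rw [orthonormal_iff_ite]
  intro m n
  rw [D, D, inner_vec, int_sinsin]
  split_ifs <;> simp

/-- the eigenvalue-like numbers -/
def lam (m : ℕ) : ℝ := 1 / om m

lemma lam_antitone : Antitone lam := by
  intro m n h
  unfold lam
  refine one_div_le_one_div_of_le (om_pos m) ?_
  unfold om
  have : (m : ℝ) ≤ n := by exact_mod_cast h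
  have := Real.pi_pos
  nlinarith

lemma exists_R (T : L01 →L[ℂ] L01) (hT : IsOp T) :
    ∃ M₁ M₂ : L01 →L[ℂ] L01, ‖M₁‖ ≤ 1 ∧ ‖M₂‖ ≤ 2 ∧
      ∀ m, M₂ (T (M₁ (C m))) = (lam m : ℂ) • D m := by
  obtain ⟨M₁, hM₁, hM₁'⟩ := Pool.Agent.V1195.L2Ops.exists_mul_op (μ := mu)
    (S.indicator fun u => (u : ℂ)) (Complex.measurable_ofReal.indicator measurableSet_Ioc)
    1 zero_le_one (by
      intro u
      by_cases h : u ∈ S
      · rw [Set.indicator_of_mem h, Complex.norm_real, Real.norm_eq_abs,
          abs_of_pos (by linarith [h.1])]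
        exact h.2
      · rw [Set.indicator_of_notMem h]; simp)
  obtain ⟨M₂, hM₂, hM₂'⟩ := Pool.Agent.V1195.L2Ops.exists_mul_op (μ := mu)
    (S.indicator fun u => ((1 / u : ℝ) : ℂ))
    ((Complex.measurable_ofReal.comp (measurable_const.div measurable_id)).indicator
      measurableSet_Ioc)
    2 zero_le_two (by
      intro u
      by_cases h : u ∈ S
      · rw [Set.indicator_of_mem h, Complex.norm_real, Real.norm_eq_abs,
          abs_of_pos (by have := h.1; positivity)]
        rw [div_le_iff₀ (by linarith [h.1])]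
        linarith [h.1]
      · rw [Set.indicator_of_notMem h]; simp)
  refine ⟨M₁, M₂, hM₁, hM₂, fun m => ?_⟩
  apply Lp.ext
  have hC : M₁ (C m) =ᵐ[mu] S.indicator fun u => ((u * (2 * Real.cos (om m * u)) : ℝ) : ℂ) := by
    filter_upwards [hM₁' (C m), vec_coe (fun u => 2 * Real.cos (om m * u)) (by fun_prop)
      (abs_cos_le _)] with u h1 h2
    rw [h1, C, h2]
    by_cases h : u ∈ S
    · rw [Set.indicator_of_mem h, Set.indicator_of_mem h, Set.indicator_of_mem h]
      push_cast; ring
    · rw [Set.indicator_of_notMem h, Set.indicator_of_notMem h, Set.indicator_of_notMem h]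
      simp
  filter_upwards [hM₂' (T (M₁ (C m))), hT (M₁ (C m)), Lp.coeFn_smul (lam m : ℂ) (D m),
    vec_coe (fun u => 2 * Real.sin (om m * u)) (by fun_prop) (abs_sin_le _)] with y h1 h2 h3 h4
  rw [h1, h3, Pi.smul_apply, D, h4, smul_eq_mul]
  by_cases h : y ∈ S
  · rw [Set.indicator_of_mem h, Set.indicator_of_mem h, h2]
    have h5 : ∫ u in Set.Icc (0 : ℝ) 1, (kern y u : ℂ) * (M₁ (C m)) u =
        ((y * (2 * Real.sin (om m * y) / om m) : ℝ) : ℂ) := by
      rw [← main_integral m h.1 h.2, ← intervalIntegral.integral_ofReal, ← integral_S]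
      refine integral_congr_ae ?_
      filter_upwards [hC] with u hu
      rw [hu]
      by_cases hu' : u ∈ S
      · rw [Set.indicator_of_mem hu', Set.indicator_of_mem hu']; push_cast; ring
      · rw [Set.indicator_of_notMem hu', Set.indicator_of_notMem hu']; simp
    rw [h5]
    have hy : (y : ℝ) ≠ 0 := by have := h.1; positivity
    rw [← Complex.ofReal_mul, ← Complex.ofReal_mul]
    congr 1
    unfold lam
    field_simp
  · rw [Set.indicator_of_notMem h, Set.indicator_of_notMem h]; simp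

lemma exists_T : ∃ T : L01 →L[ℂ] L01, IsOp T := by
  -- cut off the kernel outside the square
  have hkm : Measurable (Function.uncurry fun y u : ℝ => if 0 < y ∧ 0 < u then (kern y u : ℂ) else 0) := by
    refine Measurable.ite ?_ ?_ measurable_const
    · exact (measurableSet_lt measurable_const measurable_fst).inter
        (measurableSet_lt measurable_const measurable_snd)
    · refine Complex.measurable_ofReal.comp ?_
      have h1 : Measurable (fun p : ℝ × ℝ => p.2 / p.1) := measurable_snd.div measurable_fst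
      exact (measurable_fract.comp h1).div h1
  obtain ⟨T, hT⟩ := Pool.Agent.V1195.L2Ops.exists_kernel_op (μ := mu)
    (fun y u : ℝ => if 0 < y ∧ 0 < u then (kern y u : ℂ) else 0) hkm 1 zero_le_one (by
      intro y u
      by_cases h : 0 < y ∧ 0 < u
      · rw [if_pos h, Complex.norm_real, Real.norm_eq_abs, kern, abs_div,
          abs_of_nonneg (Int.fract_nonneg _)]
        have hp : 0 < u / y := div_pos h.2 h.1
        rw [abs_of_pos hp, div_le_one hp]
        have := Int.floor_nonneg.2 hp.le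
        have h2 : (0 : ℝ) ≤ ⌊u / y⌋ := by exact_mod_cast this
        rw [← Int.self_sub_floor]; linarith
      · rw [if_neg h]; simp)
  refine ⟨T, fun h => ?_⟩
  have hpos : ∀ᵐ y ∂mu, (0 : ℝ) < y := by
    have h1 : ∀ᵐ y ∂mu, y ∈ Set.Icc (0 : ℝ) 1 := ae_restrict_mem measurableSet_Icc
    have h2 : ∀ᵐ y ∂mu, y ≠ 0 := by
      refine ae_restrict_of_ae ?_
      rw [ae_iff]; simp
    filter_upwards [h1, h2] with y h3 h4
    exact lt_of_le_of_ne h3.1 (Ne.symm h4)
  filter_upwards [hT h, hpos] with y h1 h2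
  rw [h1]
  refine integral_congr_ae ?_
  filter_upwards [hpos] with u hu
  rw [if_pos ⟨h2, hu⟩]

/-- The operator exists, and it is not of trace class. -/
theorem result :
    (∃ T : L01 →L[ℂ] L01, IsOp T) ∧
    ∀ T : L01 →L[ℂ] L01, IsOp T →
      (∀ n : ℕ, 1 / (8 * Real.pi * ((n : ℝ) + 1)) ≤ singularNumber T n) ∧
      ¬ Summable (singularNumber T) ∧
      ¬ ∃ x y : ℕ → L01, Summable (fun n => ‖x n‖ * ‖y n‖) ∧
        ∀ h : L01, HasSum (fun n => ⟪x n, h⟫_ℂ • y n) (T h) := by
  refine ⟨exists_T, fun T hT => ?_⟩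
  obtain ⟨M₁, M₂, hM₁, hM₂, hR⟩ := exists_R T hT
  have hlam0 : ∀ m, 0 ≤ lam m := fun m => (one_div_pos.2 (om_pos m)).le
  have hlow : ∀ n : ℕ, 1 / (8 * Real.pi * ((n : ℝ) + 1)) ≤ singularNumber T n := by
    intro n
    refine le_csInf ⟨‖T - 0‖, 0, by simp, rfl⟩ ?_
    rintro r ⟨F, hF, rfl⟩
    have hF' : Module.rank ℂ (LinearMap.range (M₂.comp (F.comp M₁)).toLinearMap) ≤ n := by
      have h1 : (M₂.comp (F.comp M₁)).toLinearMap =
          (M₂.toLinearMap.comp F.toLinearMap).comp M₁.toLinearMap := rfl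
      rw [h1]
      refine le_trans (Submodule.rank_mono (LinearMap.range_comp_le_range _ _)) ?_
      rw [LinearMap.range_comp]
      exact (rank_map_le _ _).trans hF
    have h2 := Pool.Agent.V1195.L2Ops.rank_lower (M₂.comp (T.comp M₁)) (M₂.comp (F.comp M₁))
      C D orthonormal_C orthonormal_D lam lam_antitone hlam0 hR n hF'
    have h3 : M₂.comp (T.comp M₁) - M₂.comp (F.comp M₁) = M₂.comp ((T - F).comp M₁) := by
      ext1 x; simp
    rw [h3] at h2
    have h4 : ‖M₂.comp ((T - F).comp M₁)‖ ≤ 2 * ‖T - F‖ := by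
      refine (ContinuousLinearMap.opNorm_comp_le _ _).trans ?_
      refine mul_le_mul hM₂ ?_ (norm_nonneg _) zero_le_two
      refine (ContinuousLinearMap.opNorm_comp_le _ _).trans ?_
      exact mul_le_of_le_one_right (norm_nonneg _) hM₁
    have h5 : lam n = 2 * (1 / (8 * Real.pi * ((n : ℝ) + 1))) := by
      unfold lam om
      field_simp
      ring
    rw [h5] at h2
    linarith
  have hdiv : ¬ Summable (fun n : ℕ => 1 / (8 * Real.pi * ((n : ℝ) + 1))) := by
    intro h
    have h1 : Summable (fun n : ℕ => 1 / ((n : ℝ) + 1)) := by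
      have h2 := h.mul_left (8 * Real.pi)
      refine h2.congr (fun n => ?_)
      have := Real.pi_pos
      field_simp
    have h3 : Summable (fun n : ℕ => 1 / (n : ℝ)) := by
      rw [← summable_nat_add_iff 1]
      refine h1.congr (fun n => ?_)
      push_cast; rfl
    exact Real.not_summable_one_div_natCast h3
  refine ⟨hlow, fun hs => hdiv (Summable.of_nonneg_of_le (fun n => by positivity) hlow hs), ?_⟩
  rintro ⟨x, y, hxy, hxyT⟩
  -- transport the representation
  have hsum : Summable (fun n => ‖M₁.adjoint (x n)‖ * ‖M₂ (y n)‖) := by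
    refine Summable.of_nonneg_of_le (fun n => by positivity) (fun n => ?_) (hxy.mul_left 2)
    have h1 : ‖M₁.adjoint (x n)‖ ≤ ‖x n‖ := by
      refine (M₁.adjoint.le_opNorm _).trans ?_
      have : ‖M₁.adjoint‖ = ‖M₁‖ := LinearIsometryEquiv.norm_map _ _
      rw [this]
      exact mul_le_of_le_one_left (norm_nonneg _) hM₁
    have h2 : ‖M₂ (y n)‖ ≤ 2 * ‖y n‖ :=
      (M₂.le_opNorm _).trans (mul_le_mul_of_nonneg_right hM₂ (norm_nonneg _))
    calc ‖M₁.adjoint (x n)‖ * ‖M₂ (y n)‖ ≤ ‖x n‖ * (2 * ‖y n‖) :=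
          mul_le_mul h1 h2 (norm_nonneg _) (norm_nonneg _)
      _ = 2 * (‖x n‖ * ‖y n‖) := by ring
  have hrep : ∀ h, HasSum (fun n => ⟪M₁.adjoint (x n), h⟫_ℂ • M₂ (y n))
      ((M₂.comp (T.comp M₁)) h) := by
    intro h
    have h1 := (hxyT (M₁ h)).mapL M₂
    have h2 : (fun n => ⟪M₁.adjoint (x n), h⟫_ℂ • M₂ (y n)) =
        fun n => M₂ (⟪x n, M₁ h⟫_ℂ • y n) := by
      funext n
      rw [map_smul, ContinuousLinearMap.adjoint_inner_left]
    rw [h2]
    exact h1
  have hb := Pool.Agent.V1195.L2Ops.nuclear_sum (M₂.comp (T.comp M₁)) C D orthonormal_C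
    orthonormal_D _ _ hsum hrep
  have hdiag : ∀ m, ‖⟪D m, (M₂.comp (T.comp M₁)) (C m)⟫_ℂ‖ = lam m := by
    intro m
    have h1 : (M₂.comp (T.comp M₁)) (C m) = (lam m : ℂ) • D m := hR m
    rw [h1, inner_smul_right, inner_self_eq_norm_sq_to_K, orthonormal_D.1 m]
    simp [abs_of_nonneg (hlam0 m)]
  have hs2 : Summable lam := by
    refine summable_of_sum_le hlam0 (c := ∑' n, ‖M₁.adjoint (x n)‖ * ‖M₂ (y n)‖) (fun s => ?_)
    refine le_trans (le_of_eq ?_) (hb s)
    exact Finset.sum_congr rfl fun m _ => (hdiag m).symm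
  apply hdiv
  refine (hs2.mul_left (1 / 2)).congr (fun n => ?_)
  unfold lam om
  field_simp
  ring

end

end Pool.Agent.Results.MP_5a0ad8_an.NotTraceClass
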